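import Mathlib

/-!
# MP_5796a1_co: the gap between the strong vertex span and the strong edge span

For every finite connected graph `σ_V - σ_E ≤ 1`, and the value `1` is attained (by the 3-sun).
-/

namespace Pool.Agent.Results.MP_5796a1_co.GapOne

open SimpleGraph

variable {V W : Type*}

/-- Weak homomorphisms `G → H`. -/
def IsWeakHom (G : SimpleGraph V) (H : SimpleGraph W) (f : V → W) : Prop :=
  ∀ u v, G.Adj u v → f u = f v ∨ H.Adj (f u) (f v)

/-- Edge surjectivity of a map `G → H`. -/
def IsEdgeSurjective (G : SimpleGraph V) (H : SimpleGraph W) (f : V → W) : Prop :=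
  Function.Surjective f ∧ ∀ u v, H.Adj u v → ∃ x y, G.Adj x y ∧ f x = u ∧ f y = v

/-- `m_G(f, g) = min_u d_H(f u, g u)` (used for a finite nonempty domain). -/
noncomputable def minDist (H : SimpleGraph W) (f g : V → W) : ℕ := ⨅ u, H.dist (f u) (g u)

/-- The values `m_P(f, g)` for a path `P` with `n + 1` vertices and surjective weak homomorphisms
`f, g : P → H`. -/
def vertexValues (H : SimpleGraph W) : Set ℕ :=
  {m | ∃ (n : ℕ) (f g : Fin (n + 1) → W),
    IsWeakHom (pathGraph (n + 1)) H f ∧ IsWeakHom (pathGraph (n + 1)) H g ∧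
    Function.Surjective f ∧ Function.Surjective g ∧ m = minDist H f g}

/-- The values `m_P(f, g)` for a path `P` with `n + 1` vertices and edge surjective weak
homomorphisms `f, g : P → H`. -/
def edgeValues (H : SimpleGraph W) : Set ℕ :=
  {m | ∃ (n : ℕ) (f g : Fin (n + 1) → W),
    IsWeakHom (pathGraph (n + 1)) H f ∧ IsWeakHom (pathGraph (n + 1)) H g ∧
    IsEdgeSurjective (pathGraph (n + 1)) H f ∧ IsEdgeSurjective (pathGraph (n + 1)) H g ∧
    m = minDist H f g}

/-- The strong vertex span. -/
noncomputable def sigmaV (H : SimpleGraph W) : ℕ := sSup (vertexValues H)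

/-- The strong edge span. -/
noncomputable def sigmaE (H : SimpleGraph W) : ℕ := sSup (edgeValues H)

/-- A walk from `x₀` through prescribed reachable darts. -/
theorem exists_tour_darts {X : Type*} (G : SimpleGraph X) (x₀ : X) (l : List G.Dart)
    (hl : ∀ d ∈ l, G.Reachable x₀ d.fst) :
    ∃ (y : X) (p : G.Walk x₀ y), ∀ d ∈ l, d ∈ p.darts := by
  induction l with
  | nil => exact ⟨x₀, Walk.nil, by simp⟩
  | cons d l ih =>
    obtain ⟨y, p, hp⟩ := ih (fun e he => hl e (List.mem_cons_of_mem _ he))
    have h1 : G.Reachable y d.fst := (p.reachable.symm).trans (hl d (by simp))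
    obtain ⟨q⟩ := h1
    refine ⟨d.snd, (p.append q).append (Walk.cons d.adj Walk.nil), ?_⟩
    intro e he
    rcases List.mem_cons.1 he with rfl | he
    · simp
    · simp [hp e he]

/-- A walk from `x₀` through prescribed reachable darts and vertices. -/
theorem exists_tour {X : Type*} (G : SimpleGraph X) (x₀ : X) (l : List G.Dart) (l' : List X)
    (hl : ∀ d ∈ l, G.Reachable x₀ d.fst) (hl' : ∀ x ∈ l', G.Reachable x₀ x) :
    ∃ (y : X) (p : G.Walk x₀ y), (∀ d ∈ l, d ∈ p.darts) ∧ (∀ x ∈ l', x ∈ p.support) := by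
  induction l' with
  | nil =>
    obtain ⟨y, p, hp⟩ := exists_tour_darts G x₀ l hl
    exact ⟨y, p, hp, by simp⟩
  | cons x l' ih =>
    obtain ⟨y, p, hp, hp'⟩ := ih (fun e he => hl' e (List.mem_cons_of_mem _ he))
    have h1 : G.Reachable y x := (p.reachable.symm).trans (hl' x (by simp))
    obtain ⟨q⟩ := h1
    refine ⟨x, p.append q, ?_, ?_⟩
    · intro e he
      simp [hp e he]
    · intro e he
      rcases List.mem_cons.1 he with rfl | he
      · simp
      · rw [Walk.mem_support_append_iff]; exact Or.inl (hp' e he)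

/-- The graph of pairs of vertices at distance at least `k`. -/
def stateGraph (H : SimpleGraph V) (k : ℕ) : SimpleGraph {s : V × V // k ≤ H.dist s.1 s.2} where
  Adj s t := s ≠ t ∧ (s.1.1 = t.1.1 ∨ H.Adj s.1.1 t.1.1) ∧ (s.1.2 = t.1.2 ∨ H.Adj s.1.2 t.1.2)
  symm := ⟨fun s t h => ⟨h.1.symm, h.2.1.imp Eq.symm Adj.symm, h.2.2.imp Eq.symm Adj.symm⟩⟩
  loopless := ⟨fun s h => h.1 rfl⟩

theorem bounded [Finite V] (H : SimpleGraph V) : ∃ N, ∀ a b, H.dist a b ≤ N := by
  have : (Set.range (fun s : V × V => H.dist s.1 s.2)).Finite := Set.finite_range _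
  obtain ⟨N, hN⟩ := this.bddAbove
  exact ⟨N, fun a b => hN ⟨(a, b), rfl⟩⟩

theorem minDist_le (H : SimpleGraph W) (f g : V → W) (u : V) :
    minDist H f g ≤ H.dist (f u) (g u) := ciInf_le (OrderBot.bddBelow _) u

theorem bdd_edgeValues [Finite V] (H : SimpleGraph V) : BddAbove (edgeValues H) := by
  obtain ⟨N, hN⟩ := bounded H
  refine ⟨N, ?_⟩
  rintro m ⟨n, f, g, -, -, -, -, rfl⟩
  exact (minDist_le H f g 0).trans (hN _ _)

theorem bdd_vertexValues [Finite V] (H : SimpleGraph V) : BddAbove (vertexValues H) := by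
  obtain ⟨N, hN⟩ := bounded H
  refine ⟨N, ?_⟩
  rintro m ⟨n, f, g, -, -, -, -, rfl⟩
  exact (minDist_le H f g 0).trans (hN _ _)

/-- The main construction: from surjective walks keeping distance `k + 1`, edge surjective walks
keeping distance `k`. -/
theorem exists_edge_walk [Finite V] (H : SimpleGraph V) (hH : H.Connected) (k n : ℕ)
    (f g : Fin (n + 1) → V) (hf : IsWeakHom (pathGraph (n + 1)) H f)
    (hg : IsWeakHom (pathGraph (n + 1)) H g) (sf : Function.Surjective f)
    (sg : Function.Surjective g) (hk : ∀ u, k + 1 ≤ H.dist (f u) (g u)) :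
    ∃ m ∈ edgeValues H, k ≤ m := by
  classical
  let S := {s : V × V // k ≤ H.dist s.1 s.2}
  let st : Fin (n + 1) → S := fun i => ⟨(f i, g i), (Nat.le_succ k).trans (hk i)⟩
  have hreach : ∀ (i : ℕ) (hi : i < n + 1), (stateGraph H k).Reachable (st 0) (st ⟨i, hi⟩) := by
    intro i
    induction i with
    | zero => intro hi; exact Reachable.refl _
    | succ i ih =>
      intro hi
      have h1 := ih (by omega)
      refine h1.trans ?_
      by_cases he : st ⟨i, by omega⟩ = st ⟨i + 1, hi⟩
      · rw [he]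
      · refine Adj.reachable ⟨he, ?_, ?_⟩
        · exact hf _ _ (pathGraph_adj.2 (Or.inl rfl))
        · exact hg _ _ (pathGraph_adj.2 (Or.inl rfl))
  have hreach' : ∀ i, (stateGraph H k).Reachable (st 0) (st i) := fun i => hreach i.1 i.2
  have : Finite S := Subtype.finite
  have : Finite (stateGraph H k).Dart :=
    Finite.of_injective (fun d => d.toProd) (fun d e h => Dart.ext _ _ h)
  obtain ⟨y, p, hp, hp'⟩ := exists_tour (stateGraph H k) (st 0)
    (Set.toFinite {d : (stateGraph H k).Dart | (stateGraph H k).Reachable (st 0) d.fst}).toFinset.toList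
    (Set.toFinite {x : S | (stateGraph H k).Reachable (st 0) x}).toFinset.toList
    (by intro d hd; have h := (Set.Finite.mem_toFinset _).1 (Finset.mem_toList.1 hd); exact h)
    (by intro d hd; have h := (Set.Finite.mem_toFinset _).1 (Finset.mem_toList.1 hd); exact h)
  let F : Fin (p.length + 1) → V := fun i => (p.getVert i).1.1
  let G : Fin (p.length + 1) → V := fun i => (p.getVert i).1.2
  have hstep : ∀ i : ℕ, i < p.length → (stateGraph H k).Adj (p.getVert i) (p.getVert (i + 1)) :=
    fun i hi => p.adj_getVert_succ hi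
  have whF : IsWeakHom (pathGraph (p.length + 1)) H F := by
    intro u v huv
    rcases pathGraph_adj.1 huv with h | h
    · have := (hstep u.1 (by omega)).2.1
      rw [h] at this; exact this
    · have := (hstep v.1 (by omega)).2.1
      rw [h] at this; exact this.imp Eq.symm Adj.symm
  have whG : IsWeakHom (pathGraph (p.length + 1)) H G := by
    intro u v huv
    rcases pathGraph_adj.1 huv with h | h
    · have := (hstep u.1 (by omega)).2.2
      rw [h] at this; exact this
    · have := (hstep v.1 (by omega)).2.2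
      rw [h] at this; exact this.imp Eq.symm Adj.symm
  have cover : ∀ x : S, (stateGraph H k).Reachable (st 0) x →
      ∃ i : Fin (p.length + 1), p.getVert i = x := by
    intro x hx
    have : x ∈ p.support := hp' x (Finset.mem_toList.2 ((Set.Finite.mem_toFinset _).2 hx))
    obtain ⟨i, hi, hi'⟩ := Walk.mem_support_iff_exists_getVert.1 this
    exact ⟨⟨i, by omega⟩, hi⟩
  have coverD : ∀ x y : S, (stateGraph H k).Reachable (st 0) x → (stateGraph H k).Adj x y →
      ∃ i : ℕ, i < p.length ∧ p.getVert i = x ∧ p.getVert (i + 1) = y := by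
    intro x y hx hxy
    have : (⟨(x, y), hxy⟩ : (stateGraph H k).Dart) ∈ p.darts := hp _ (Finset.mem_toList.2 ((Set.Finite.mem_toFinset _).2 hx))
    obtain ⟨i, hi, hi'⟩ := List.getElem_of_mem this
    rw [Walk.darts_getElem_eq_getVert] at hi'
    have hi2 : i < p.length := by simpa using hi
    refine ⟨i, hi2, ?_, ?_⟩
    · exact congrArg (fun d : (stateGraph H k).Dart => d.fst) hi'
    · exact congrArg (fun d : (stateGraph H k).Dart => d.snd) hi'
  have esF : IsEdgeSurjective (pathGraph (p.length + 1)) H F := by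
    constructor
    · intro v
      obtain ⟨i, hi⟩ := sf v
      obtain ⟨j, hj⟩ := cover (st i) (hreach' i)
      exact ⟨j, by simp only [F]; rw [hj]; exact hi⟩
    · intro u v huv
      obtain ⟨i, hi⟩ := sf u
      have hd : k ≤ H.dist v (g i) := by
        have h1 := hk i
        rw [hi] at h1
        have h2 := hH.dist_triangle (u := u) (v := v) (w := g i)
        rw [dist_eq_one_iff_adj.2 huv] at h2
        omega
      obtain ⟨j, hj, hj1, hj2⟩ := coverD (st i) ⟨(v, g i), hd⟩ (hreach' i)
        ⟨by
          intro he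
          have := congrArg (fun s : S => s.1.1) he
          simp only [st] at this
          rw [hi] at this
          exact huv.ne this, by simp only [st]; rw [hi]; exact Or.inr huv, Or.inl rfl⟩
      refine ⟨⟨j, by omega⟩, ⟨j + 1, by omega⟩, pathGraph_adj.2 (Or.inl rfl), ?_, ?_⟩
      · simp only [F]; rw [hj1]; exact hi
      · simp only [F]; rw [hj2]
  have esG : IsEdgeSurjective (pathGraph (p.length + 1)) H G := by
    constructor
    · intro v
      obtain ⟨i, hi⟩ := sg v
      obtain ⟨j, hj⟩ := cover (st i) (hreach' i)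
      exact ⟨j, by simp only [G]; rw [hj]; exact hi⟩
    · intro u v huv
      obtain ⟨i, hi⟩ := sg u
      have hd : k ≤ H.dist (f i) v := by
        have h1 := hk i
        rw [hi] at h1
        have h2 := hH.dist_triangle (u := f i) (v := v) (w := u)
        rw [dist_comm (u := v), dist_eq_one_iff_adj.2 huv] at h2
        omega
      obtain ⟨j, hj, hj1, hj2⟩ := coverD (st i) ⟨(f i, v), hd⟩ (hreach' i)
        ⟨by
          intro he
          have := congrArg (fun s : S => s.1.2) he
          simp only [st] at this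
          rw [hi] at this
          exact huv.ne this, Or.inl rfl, by simp only [st]; rw [hi]; exact Or.inr huv⟩
      refine ⟨⟨j, by omega⟩, ⟨j + 1, by omega⟩, pathGraph_adj.2 (Or.inl rfl), ?_, ?_⟩
      · simp only [G]; rw [hj1]; exact hi
      · simp only [G]; rw [hj2]
  refine ⟨minDist H F G, ⟨p.length, F, G, whF, whG, esF, esG, rfl⟩, ?_⟩
  exact le_ciInf (fun i => (p.getVert i).2)

theorem sigmaV_le [Finite V] (H : SimpleGraph V) (hH : H.Connected) :
    sigmaV H ≤ sigmaE H + 1 := by
  rcases Set.eq_empty_or_nonempty (vertexValues H) with h | h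
  · unfold sigmaV; rw [h]; simp
  · apply csSup_le h
    rintro m ⟨n, f, g, hf, hg, sf, sg, rfl⟩
    rcases Nat.eq_zero_or_pos (minDist H f g) with h0 | h0
    · omega
    · obtain ⟨m', hm', hle⟩ := exists_edge_walk H hH (minDist H f g - 1) n f g hf hg sf sg
        (fun u => by have := minDist_le H f g u; omega)
      have := le_csSup (bdd_edgeValues H) hm'
      unfold sigmaE
      omega

/-- The 3-sun. -/
def sun : SimpleGraph (Fin 6) where
  Adj a b := (a, b) ∈ ([(0, 4), (0, 5), (1, 3), (1, 5), (2, 3), (2, 4), (3, 4), (3, 5), (4, 5),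
    (4, 0), (5, 0), (3, 1), (5, 1), (3, 2), (4, 2), (4, 3), (5, 3), (5, 4)] : List (Fin 6 × Fin 6))
  symm := ⟨by decide⟩
  loopless := ⟨by decide⟩

instance : DecidableRel sun.Adj := fun a b => by unfold sun; infer_instance

theorem sun_connected : sun.Connected := by
  have h3 : ∀ v, v = 3 ∨ sun.Adj v 3 ∨ ∃ w, sun.Adj v w ∧ sun.Adj w 3 := by decide
  rw [connected_iff_exists_forall_reachable]
  refine ⟨3, fun v => ?_⟩
  rcases h3 v with rfl | h | ⟨w, h1, h2⟩
  · exact Reachable.refl _
  · exact h.reachable.symm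
  · exact (h1.reachable.trans h2.reachable).symm

theorem sun_dist {a b : Fin 6} : 2 ≤ sun.dist a b ↔ a ≠ b ∧ ¬ sun.Adj a b := by
  rw [← dist_eq_one_iff_adj]
  have h0 : sun.dist a b = 0 ↔ a = b := sun_connected.dist_eq_zero_iff
  rw [Ne, ← h0]
  omega

theorem sun_sigmaV : 2 ≤ sigmaV sun := by
  have hmem : minDist sun ![0, 4, 2, 3, 1, 5] ![3, 1, 5, 0, 4, 2] ∈ vertexValues sun := by
    refine ⟨5, ![0, 4, 2, 3, 1, 5], ![3, 1, 5, 0, 4, 2], ?_, ?_, ?_, ?_, rfl⟩
    · intro u v huv
      rw [pathGraph_adj] at huv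
      revert u v
      decide
    · intro u v huv
      rw [pathGraph_adj] at huv
      revert u v
      decide
    · decide
    · decide
  refine le_trans ?_ (le_csSup (bdd_vertexValues sun) hmem)
  refine le_ciInf (fun i => ?_)
  rw [sun_dist]
  revert i
  decide

theorem sun_sigmaE : sigmaE sun ≤ 1 := by
  rcases Set.eq_empty_or_nonempty (edgeValues sun) with h | h
  · unfold sigmaE; rw [h]; simp
  · apply csSup_le h
    rintro m ⟨n, f, g, hf, hg, sf, sg, rfl⟩
    by_contra hcon
    have hd : ∀ u, f u ≠ g u ∧ ¬ sun.Adj (f u) (g u) := by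
      intro u
      rw [← sun_dist]
      have := minDist_le sun f g u
      omega
    obtain ⟨x, y, hxy, hx, hy⟩ := sf.2 3 4 (by decide)
    have h1 := hd x
    have h2 := hd y
    rw [hx] at h1
    rw [hy] at h2
    have h3 : ∀ a : Fin 6, (3 : Fin 6) ≠ a ∧ ¬ sun.Adj 3 a → a = 0 := by decide
    have h4 : ∀ a : Fin 6, (4 : Fin 6) ≠ a ∧ ¬ sun.Adj 4 a → a = 1 := by decide
    have h5 := hg x y hxy
    rw [h3 _ h1, h4 _ h2] at h5
    revert h5
    decide

/-- **Full answer to Q1 of MP_5796a1_co: `D = 1`.** -/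
theorem result : IsGreatest {d : ℤ | ∃ (n : ℕ) (H : SimpleGraph (Fin n)), H.Connected ∧
    d = (sigmaV H : ℤ) - (sigmaE H : ℤ)} 1 := by
  constructor
  · refine ⟨6, sun, sun_connected, ?_⟩
    have h1 := sigmaV_le sun sun_connected
    have h2 := sun_sigmaV
    have h3 := sun_sigmaE
    omega
  · rintro d ⟨n, H, hH, rfl⟩
    have := sigmaV_le H hH
    omega

end Pool.Agent.Results.MP_5796a1_co.GapOne
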